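import Pool.Agent.L5helper32.GR.Defs

/-! Random residue model: infinitely many descents with a property of probability at least `c`. -/

set_option autoImplicit false

open Finset MeasureTheory ProbabilityTheory

namespace Pool.Agent.L5helper41.GR2

open Pool.Agent.L5helper32.GR

theorem lt_nextZero (p : ℕ) (T : ℕ → ℕ → ℕ) (z : ℕ) : z < nextZero p T z := by
  unfold nextZero; omega

theorem zeros_strictMono (p : ℕ) (T : ℕ → ℕ → ℕ → ℕ) (z₀ : ℕ) : StrictMono (zeros p T z₀) :=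
  strictMono_nat_of_lt_succ fun _ => lt_nextZero _ _ _

section dep

variable {ι : Type}

/-- the extension by zero -/
noncomputable def ext (S : Finset ι) (g : S → ℕ) (i : ι) : ℕ := by
  classical exact if h : i ∈ S then g ⟨i, h⟩ else 0

lemma ext_eq (S : Finset ι) (f : ι → ℕ) (i : ι) (hi : i ∈ S) :
    ext S (fun j : S => f j) i = f i := by
  unfold ext
  rw [dif_pos hi]

lemma dep_pre {Ω : Type} {T : ι → Ω → ℕ} {S : Finset ι} {A : Set (ι → ℕ)} (hA : Dep S A) :
    {ω | (fun i => T i ω) ∈ A} = (fun ω (i : S) => T i ω) ⁻¹' {g : S → ℕ | ext S g ∈ A} := by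
  ext ω
  show (fun i => T i ω) ∈ A ↔ ext S (fun i : S => T i ω) ∈ A
  exact hA _ _ fun i hi => (ext_eq S (fun i => T i ω) i hi).symm

theorem dep_meas {Ω : Type} [MeasurableSpace Ω] {T : ι → Ω → ℕ} (hm : ∀ i, Measurable (T i))
    {S : Finset ι} {A : Set (ι → ℕ)} (hA : Dep S A) :
    MeasurableSet {ω | (fun i => T i ω) ∈ A} := by
  rw [dep_pre hA]
  exact (measurable_pi_lambda _ fun i : S => hm i) (Set.to_countable _).measurableSet

theorem dep_indep {Ω : Type} [MeasurableSpace Ω] {μ : Measure Ω} [IsProbabilityMeasure μ]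
    {T : ι → Ω → ℕ} (hm : ∀ i, Measurable (T i)) (hi : iIndepFun T μ) {S S' : Finset ι}
    (hd : Disjoint S S') {A B : Set (ι → ℕ)} (hA : Dep S A) (hB : Dep S' B) :
    μ {ω | (fun i => T i ω) ∈ A ∧ (fun i => T i ω) ∈ B}
      = μ {ω | (fun i => T i ω) ∈ A} * μ {ω | (fun i => T i ω) ∈ B} := by
  have h1 := hi.indepFun_finset S S' hd hm
  have h2 := h1.measure_inter_preimage_eq_mul {g : S → ℕ | ext S g ∈ A} {g : S' → ℕ | ext S' g ∈ B}
    (Set.to_countable _).measurableSet (Set.to_countable _).measurableSet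
  rw [← dep_pre hA, ← dep_pre hB] at h2
  exact h2

end dep

theorem Model.res {Ω : Type} [MeasurableSpace Ω] {μ : Measure Ω} [IsProbabilityMeasure μ]
    {T : ℕ × ℕ × ℕ → Ω → ℕ} (h : Model μ T) (z : ℕ) : Res μ fun i => T (z, i) where
  meas := fun i => h.meas _
  indep := by
    have := h.indep.precomp (g := fun i : ℕ × ℕ => (z, i)) (Prod.mk_right_injective z)
    exact this
  unif := fun c r hr t ht => h.unif z c r hr t ht

/-- the zeros as a function of all residues -/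
noncomputable def ZF (p z₀ : ℕ) (F : ℕ × ℕ × ℕ → ℕ) (k : ℕ) : ℕ :=
  zeros p (fun z c r => F (z, c, r)) z₀ k

lemma ZF_succ (p z₀ : ℕ) (F : ℕ × ℕ × ℕ → ℕ) (k : ℕ) :
    ZF p z₀ F (k + 1) = nextZero p (fun c r => F (ZF p z₀ F k, c, r)) (ZF p z₀ F k) := rfl

lemma ZF_mono (p z₀ : ℕ) (F : ℕ × ℕ × ℕ → ℕ) : StrictMono (ZF p z₀ F) := zeros_strictMono _ _ _

section

variable {p z₀ : ℕ} (S : ℕ → Finset (ℕ × ℕ)) (A : ℕ → Set (ℕ × ℕ → ℕ))

/-- the indices before the zero `z` -/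
def SZ (p : ℕ) (S : ℕ → Finset (ℕ × ℕ)) (z : ℕ) : Finset (ℕ × ℕ × ℕ) :=
  (range z).biUnion fun z' =>
    {z'} ×ˢ ((range (lev p z' + 1) ×ˢ range (lev p z' + 3)) ∪ S z')

lemma mem_SZ1 {z z' c r : ℕ} (h : z' < z) (hc : (c, r) ∈ range (lev p z' + 1) ×ˢ range (lev p z' + 3)) :
    (z', c, r) ∈ SZ p S z := by
  unfold SZ
  rw [mem_biUnion]
  exact ⟨z', mem_range.2 h, mem_product.2 ⟨mem_singleton_self _, mem_union_left _ hc⟩⟩

lemma mem_SZ2 {z z' : ℕ} {i : ℕ × ℕ} (h : z' < z) (hi : i ∈ S z') : (z', i) ∈ SZ p S z := by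
  unfold SZ
  rw [mem_biUnion]
  exact ⟨z', mem_range.2 h, mem_product.2 ⟨mem_singleton_self _, mem_union_right _ hi⟩⟩

/-- the event: the `k`-th zero is `z`, no success from `k0` on -/
def EE (p z₀ k0 : ℕ) (A : ℕ → Set (ℕ × ℕ → ℕ)) (k z : ℕ) : Set (ℕ × ℕ × ℕ → ℕ) :=
  {F | ZF p z₀ F k = z ∧ ∀ j, k0 ≤ j → j < k → (fun i => F (ZF p z₀ F j, i)) ∉ A (ZF p z₀ F j)}

lemma ZF_congr (hz : 1 ≤ z₀)
    (hnext : ∀ z, 1 ≤ z → ∀ n, Dep (range (lev p z + 1) ×ˢ range (lev p z + 3)) {f : ℕ × ℕ → ℕ |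
      nextZero p (fun c r => f (c, r)) z = n})
    {F G : ℕ × ℕ × ℕ → ℕ} {k z : ℕ} (hFG : ∀ i ∈ SZ p S z, F i = G i) (hk : ZF p z₀ F k = z) :
    ∀ j ≤ k, ZF p z₀ F j = ZF p z₀ G j := by
  intro j
  induction j with
  | zero => intro _; rfl
  | succ j ih =>
    intro hj
    have h1 := ih (by omega)
    rw [ZF_succ, ZF_succ, ← h1]
    have hlt : ZF p z₀ F j < z := by
      rw [← hk]
      exact ZF_mono p z₀ F (by omega)
    have h1' : 1 ≤ ZF p z₀ F j := by
      have h2 : z₀ = ZF p z₀ F 0 := rfl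
      have h3 := (ZF_mono p z₀ F).monotone (Nat.zero_le j)
      omega
    have h4 := (hnext _ h1' (nextZero p (fun c r => G (ZF p z₀ F j, c, r)) (ZF p z₀ F j)))
      (fun i => F (ZF p z₀ F j, i)) (fun i => G (ZF p z₀ F j, i)) (fun i hi => by
        obtain ⟨c, r⟩ := i
        exact hFG _ (mem_SZ1 S hlt hi))
    exact h4.2 rfl

lemma EE_dep (hz : 1 ≤ z₀)
    (hnext : ∀ z, 1 ≤ z → ∀ n, Dep (range (lev p z + 1) ×ˢ range (lev p z + 3)) {f : ℕ × ℕ → ℕ |
      nextZero p (fun c r => f (c, r)) z = n})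
    (hS : ∀ z, 1 ≤ z → Dep (S z) (A z)) (k0 k z : ℕ) : Dep (SZ p S z) (EE p z₀ k0 A k z) := by
  have key : ∀ F G : ℕ × ℕ × ℕ → ℕ, (∀ i ∈ SZ p S z, F i = G i) → F ∈ EE p z₀ k0 A k z →
      G ∈ EE p z₀ k0 A k z := by
    rintro F G hFG ⟨h1, h2⟩
    have h3 := ZF_congr S hz hnext hFG h1
    refine ⟨by rw [← h3 k le_rfl]; exact h1, fun j hj hjk hc => h2 j hj hjk ?_⟩
    rw [← h3 j hjk.le] at hc
    have hlt : ZF p z₀ F j < z := by
      rw [← h1]
      exact ZF_mono p z₀ F hjk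
    have h1' : 1 ≤ ZF p z₀ F j := by
      have h2 : z₀ = ZF p z₀ F 0 := rfl
      have h3 := (ZF_mono p z₀ F).monotone (Nat.zero_le j)
      omega
    exact (hS _ h1' (fun i => F (ZF p z₀ F j, i)) (fun i => G (ZF p z₀ F j, i))
      (fun i hi => hFG _ (mem_SZ2 S hlt hi))).2 hc
  exact fun F G hFG => ⟨key F G hFG, key G F fun i hi => (hFG i hi).symm⟩

end

/-- Infinitely many descents with a property which has probability at least `c`. -/
theorem chain_io {p : ℕ} {z₀ : ℕ} (hz : 1 ≤ z₀)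
    (hnext : ∀ z, 1 ≤ z → ∀ n, Dep (range (lev p z + 1) ×ˢ range (lev p z + 3)) {f : ℕ × ℕ → ℕ |
      nextZero p (fun c r => f (c, r)) z = n})
    {Ω : Type} [MeasurableSpace Ω]
    {μ : Measure Ω} [IsProbabilityMeasure μ] {T : ℕ × ℕ × ℕ → Ω → ℕ} (hT : Model μ T)
    (A : ℕ → Set (ℕ × ℕ → ℕ)) (hA : ∀ z, 1 ≤ z → ∃ S, Dep S (A z)) {c : ℝ} (hc : 0 < c) {z₁ : ℕ}
    (h : ∀ z ≥ z₁, c ≤ μ.real {ω | (fun i => T (z, i) ω) ∈ A z}) :
    ∀ᵐ ω ∂μ, ∃ᶠ k in Filter.atTop,
      (fun i => T (zeros p (mres T ω) z₀ k, i) ω) ∈ A (zeros p (mres T ω) z₀ k) := by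
  classical
  -- the index sets
  have hS' : ∃ S : ℕ → Finset (ℕ × ℕ), ∀ z, 1 ≤ z → Dep (S z) (A z) := by
    refine ⟨fun z => if hz : 1 ≤ z then (hA z hz).choose else ∅, fun z hz => ?_⟩
    simp only [dif_pos hz]
    exact (hA z hz).choose_spec
  obtain ⟨S, hS⟩ := hS'
  have hc1 : c ≤ 1 := (h z₁ le_rfl).trans measureReal_le_one
  -- the complement of `A z`
  have hAc : ∀ z, 1 ≤ z → Dep (({z} : Finset ℕ) ×ˢ S z)
      {F : ℕ × ℕ × ℕ → ℕ | (fun i => F (z, i)) ∉ A z} := by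
    intro z hz F G hFG
    have := hS z hz (fun i => F (z, i)) (fun i => G (z, i)) fun i hi =>
      hFG _ (mem_product.2 ⟨mem_singleton_self _, hi⟩)
    exact not_congr this
  set D : ℕ → ℕ → Set Ω := fun k0 k => {ω | ∀ j, k0 ≤ j → j < k →
    (fun i => T (ZF p z₀ (fun i => T i ω) j, i) ω) ∉ A (ZF p z₀ (fun i => T i ω) j)} with hD
  -- a decomposition
  have hE : ∀ k0 k z, 1 ≤ z → MeasurableSet {ω | (fun i => T i ω) ∈ EE p z₀ k0 A k z} :=
    fun k0 k z _ => dep_meas hT.meas (EE_dep S A hz hnext hS k0 k z)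
  have hE0 : ∀ k0 k, MeasurableSet {ω | (fun i => T i ω) ∈ EE p z₀ k0 A k 0} :=
    fun k0 k => dep_meas hT.meas (EE_dep S A hz hnext hS k0 k 0)
  have hpos : ∀ F k, 1 ≤ ZF p z₀ F k := by
    intro F k
    have h2 : z₀ = ZF p z₀ F 0 := rfl
    have h3 := (ZF_mono p z₀ F).monotone (Nat.zero_le k)
    omega
  have hsum : ∀ k0 k, μ (D k0 k) = ∑' z, μ {ω | (fun i => T i ω) ∈ EE p z₀ k0 A k (z + 1)} := by
    intro k0 k
    have e : D k0 k = ⋃ z, {ω | (fun i => T i ω) ∈ EE p z₀ k0 A k (z + 1)} := by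
      ext ω
      simp only [Set.mem_iUnion]
      constructor
      · intro hω
        refine ⟨ZF p z₀ (fun i => T i ω) k - 1, ?_, hω⟩
        have := hpos (fun i => T i ω) k
        show ZF p z₀ (fun i => T i ω) k = _
        omega
      · rintro ⟨z, -, h2⟩
        exact h2
    rw [e, measure_iUnion]
    · intro a b hab
      rw [Function.onFun, Set.disjoint_left]
      rintro ω ⟨h1, -⟩ ⟨h2, -⟩
      exact hab (by
        have := h1.symm.trans h2
        omega)
    · exact fun z => hE k0 k _ (by omega)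
  have hstep : ∀ k0 k, z₁ ≤ k0 → k0 ≤ k → μ (D k0 (k + 1)) ≤ ENNReal.ofReal (1 - c) * μ (D k0 k) := by
    intro k0 k hk0 hk
    have e : D k0 (k + 1) = ⋃ z, {ω | (fun i => T i ω) ∈ EE p z₀ k0 A k (z + 1) ∧
        (fun i => T i ω) ∈ {F : ℕ × ℕ × ℕ → ℕ | (fun i => F (z + 1, i)) ∉ A (z + 1)}} := by
      ext ω
      simp only [Set.mem_iUnion]
      constructor
      · intro hω
        have h1 := hpos (fun i => T i ω) k
        have h2 : ZF p z₀ (fun i => T i ω) k - 1 + 1 = ZF p z₀ (fun i => T i ω) k := by omega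
        refine ⟨ZF p z₀ (fun i => T i ω) k - 1, ⟨?_, fun j hj hjk => hω j hj (by omega)⟩, ?_⟩
        · show ZF p z₀ (fun i => T i ω) k = _
          omega
        · show (fun i => T (ZF p z₀ (fun i => T i ω) k - 1 + 1, i) ω) ∉
            A (ZF p z₀ (fun i => T i ω) k - 1 + 1)
          rw [h2]
          exact hω k hk (by omega)
      · rintro ⟨z, ⟨h1, h2⟩, h3⟩ j hj hjk
        rcases Nat.lt_succ_iff_lt_or_eq.1 hjk with h4 | h4
        · exact h2 j hj h4
        · subst h4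
          have h1' : ZF p z₀ (fun i => T i ω) j = z + 1 := h1
          rw [h1']
          exact h3
    rw [e]
    refine (measure_iUnion_le _).trans ?_
    rw [hsum k0 k, ← ENNReal.tsum_mul_left]
    refine ENNReal.tsum_le_tsum fun z => ?_
    rw [dep_indep hT.meas hT.indep (S := SZ p S (z + 1)) (S' := ({z + 1} : Finset ℕ) ×ˢ S (z + 1))
      ?_ (EE_dep S A hz hnext hS k0 k (z + 1)) (hAc (z + 1) (by omega)), mul_comm]
    · rcases lt_or_ge (z + 1) z₁ with hlt | hge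
      · -- impossible: the zero number `k` is at least `k`
        have e0 : {ω | (fun i => T i ω) ∈ EE p z₀ k0 A k (z + 1)} = ∅ := by
          ext ω
          simp only [Set.mem_ofPred_eq, Set.mem_empty_iff_false, iff_false]
          rintro ⟨h1, -⟩
          have h2 := (ZF_mono p z₀ (fun i => T i ω)).id_le k
          simp only [id_eq] at h2
          rw [h1] at h2
          omega
        rw [e0, measure_empty, mul_zero, mul_zero]
      · refine mul_le_mul_left ?_ _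
        have hm : MeasurableSet {ω | (fun i => T (z + 1, i) ω) ∈ A (z + 1)} :=
          dep_meas (T := fun i : ℕ × ℕ => T (z + 1, i)) (fun i => hT.meas _) (hS (z + 1) (by omega))
        have h5 := h (z + 1) hge
        have e1 : {ω | (fun i => T i ω) ∈ {F : ℕ × ℕ × ℕ → ℕ | (fun i => F (z + 1, i)) ∉ A (z + 1)}} =
            {ω | (fun i => T (z + 1, i) ω) ∈ A (z + 1)}ᶜ := rfl
        rw [e1, ← ofReal_measureReal, measureReal_compl hm]
        refine ENNReal.ofReal_le_ofReal ?_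
        rw [probReal_univ]
        linarith
    · rw [Finset.disjoint_left]
      intro i hi hi'
      unfold SZ at hi
      rw [mem_biUnion] at hi
      obtain ⟨z', hz', hi2⟩ := hi
      rw [mem_product, mem_singleton] at hi2 hi'
      rw [mem_range] at hz'
      omega
  have hpow : ∀ k0, z₁ ≤ k0 → ∀ m, μ (D k0 (k0 + m)) ≤ ENNReal.ofReal (1 - c) ^ m := by
    intro k0 hk0 m
    induction m with
    | zero => rw [pow_zero]; exact prob_le_one
    | succ m ih =>
      refine (hstep k0 (k0 + m) hk0 (by omega)).trans ?_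
      rw [pow_succ, mul_comm]
      exact mul_le_mul_left ih _
  have hnull : ∀ k0, z₁ ≤ k0 → μ (⋂ m, D k0 (k0 + m)) = 0 := by
    intro k0 hk0
    have h1 : Filter.Tendsto (fun m : ℕ => ENNReal.ofReal (1 - c) ^ m) Filter.atTop (nhds 0) :=
      ENNReal.tendsto_pow_atTop_nhds_zero_of_lt_one (by
        rw [ENNReal.ofReal_lt_one]
        linarith)
    refine le_antisymm (ge_of_tendsto' h1 fun m => ?_) zero_le
    exact (measure_mono (Set.iInter_subset _ m)).trans (hpow k0 hk0 m)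
  have hall : ∀ᵐ ω ∂μ, ∀ k0, z₁ ≤ k0 → ω ∉ ⋂ m, D k0 (k0 + m) := by
    rw [ae_all_iff]
    intro k0
    by_cases hk0 : z₁ ≤ k0
    · have := measure_eq_zero_iff_ae_notMem.1 (hnull k0 hk0)
      filter_upwards [this] with ω hω _ using hω
    · exact Filter.Eventually.of_forall fun ω h => absurd h hk0
  filter_upwards [hall] with ω hω
  rw [Filter.frequently_atTop]
  intro a
  have h1 := hω (max a z₁) (le_max_right _ _)
  by_contra hcon
  push Not at hcon
  apply h1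
  rw [Set.mem_iInter]
  intro m j hj _
  exact hcon j ((le_max_left _ _).trans hj)

end Pool.Agent.L5helper41.GR2
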